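import Mathlib

/-! Small doubling: the number of directions of rich lines (consecutive cones). -/

set_option autoImplicit false

namespace Pool.Agent.Work.MP_916cc8_co.SD

open Finset
open scoped Pointwise

/-- The points of `Y` on the line of slope `σ` and intercept `c`. -/
noncomputable def ln (Y : Finset (ℝ × ℝ)) (σ c : ℝ) : Finset (ℝ × ℝ) :=
  Y.filter fun q => q.2 = σ * q.1 + c

/-- The differences of `Y` on the open ray of slope `σ`. -/
noncomputable def ray (Y : Finset (ℝ × ℝ)) (σ : ℝ) : Finset (ℝ × ℝ) :=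
  (Y - Y).filter fun v => 0 < v.1 ∧ v.2 = σ * v.1

theorem ray_card {Y : Finset (ℝ × ℝ)} {σ c : ℝ} {t : ℕ} (h : t < (ln Y σ c).card) :
    t ≤ (ray Y σ).card := by
  classical
  have hne : (ln Y σ c).Nonempty := by
    rw [← Finset.card_pos]
    omega
  obtain ⟨q₀, hq₀, hmin⟩ := Finset.exists_min_image (ln Y σ c) (fun q => q.1) hne
  obtain ⟨hq₀Y, hq₀c⟩ := Finset.mem_filter.1 hq₀
  have h1 : ((ln Y σ c).erase q₀).card ≤ (ray Y σ).card := by
    refine Finset.card_le_card_of_injOn (fun q => q - q₀) ?_ ?_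
    · intro q hq
      rw [Finset.mem_coe, Finset.mem_erase] at hq
      obtain ⟨hne, hq⟩ := hq
      obtain ⟨hqY, hqc⟩ := Finset.mem_filter.1 hq
      have hle := hmin q hq
      refine Finset.mem_coe.2 (Finset.mem_filter.2 ⟨Finset.sub_mem_sub hqY hq₀Y, ?_, ?_⟩)
      · have hne1 : q₀.1 ≠ q.1 := by
          intro he
          apply hne
          refine Prod.ext he.symm ?_
          rw [hqc, hq₀c, he]
        have := lt_of_le_of_ne hle hne1
        simp only [Prod.fst_sub]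
        linarith
      · simp only [Prod.fst_sub, Prod.snd_sub]
        rw [hqc, hq₀c]
        ring
    · intro a _ b _ hab
      exact sub_left_injective hab
  rw [Finset.card_erase_of_mem hq₀] at h1
  omega

/-- The sum of points on two rays lies strictly between. -/
theorem between {σ τ : ℝ} {u v : ℝ × ℝ} (hστ : σ < τ) (hu : 0 < u.1 ∧ u.2 = σ * u.1)
    (hv : 0 < v.1 ∧ v.2 = τ * v.1) :
    0 < (u + v).1 ∧ σ * (u + v).1 < (u + v).2 ∧ (u + v).2 < τ * (u + v).1 := by
  obtain ⟨hu1, hu2⟩ := hu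
  obtain ⟨hv1, hv2⟩ := hv
  simp only [Prod.fst_add, Prod.snd_add]
  rw [hu2, hv2]
  refine ⟨by linarith, ?_, ?_⟩ <;> nlinarith

/-- **Consecutive cones**: the number of directions of lines with more than `t` points. -/
theorem directions (Y : Finset (ℝ × ℝ)) (S : Finset ℝ) (t : ℕ)
    (hS : ∀ σ ∈ S, ∃ c, t < (ln Y σ c).card) :
    (S.card - 1) * t ^ 2 ≤ ((Y - Y) + (Y - Y)).card := by
  classical
  rcases S.eq_empty_or_nonempty with rfl | hne
  · simp
  set M := S.max' hne with hM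
  have hMS : M ∈ S := S.max'_mem hne
  -- the next slope
  have hnx : ∀ σ ∈ S.erase M, ∃ τ ∈ S, σ < τ ∧ ∀ ρ ∈ S, σ < ρ → τ ≤ ρ := by
    intro σ hσ
    rw [Finset.mem_erase] at hσ
    have hlt : σ < M := lt_of_le_of_ne (S.le_max' σ hσ.2) hσ.1
    obtain ⟨τ, hτ, hmin⟩ := Finset.exists_min_image (S.filter fun ρ => σ < ρ) (fun ρ => ρ)
      ⟨M, Finset.mem_filter.2 ⟨hMS, hlt⟩⟩
    obtain ⟨h1, h2⟩ := Finset.mem_filter.1 hτ
    exact ⟨τ, h1, h2, fun ρ hρ hσρ => hmin ρ (Finset.mem_filter.2 ⟨hρ, hσρ⟩)⟩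
  choose! nx hnx1 hnx2 hnx3 using hnx
  let F : Finset (Sigma fun _ : ℝ => (ℝ × ℝ) × (ℝ × ℝ)) :=
    (S.erase M).sigma fun σ => (ray Y σ) ×ˢ (ray Y (nx σ))
  have hF : (S.card - 1) * t ^ 2 ≤ F.card := by
    rw [Finset.card_sigma, ← Finset.card_erase_of_mem hMS, ← smul_eq_mul]
    refine Finset.card_nsmul_le_sum _ _ _ fun σ hσ => ?_
    rw [Finset.card_product, sq]
    obtain ⟨c, hc⟩ := hS σ (Finset.mem_of_mem_erase hσ)
    obtain ⟨c', hc'⟩ := hS (nx σ) (hnx1 σ hσ)
    exact Nat.mul_le_mul (ray_card hc) (ray_card hc')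
  refine hF.trans ?_
  refine Finset.card_le_card_of_injOn (fun z => z.2.1 + z.2.2) ?_ ?_
  · intro z hz
    have hz' := Finset.mem_sigma.1 (Finset.mem_coe.1 hz)
    have h2 := Finset.mem_product.1 hz'.2
    exact Finset.mem_coe.2 (Finset.add_mem_add (Finset.mem_filter.1 h2.1).1
      (Finset.mem_filter.1 h2.2).1)
  · rintro ⟨σ, u, v⟩ hz ⟨σ', u', v'⟩ hw he
    have hz' := Finset.mem_sigma.1 (Finset.mem_coe.1 hz)
    have hw' := Finset.mem_sigma.1 (Finset.mem_coe.1 hw)
    obtain ⟨hσ, huv⟩ := hz'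
    obtain ⟨hσ', huv'⟩ := hw'
    rw [Finset.mem_product] at huv huv'
    simp only at hσ hσ' huv huv' he
    have hu := (Finset.mem_filter.1 huv.1).2
    have hv := (Finset.mem_filter.1 huv.2).2
    have hu' := (Finset.mem_filter.1 huv'.1).2
    have hv' := (Finset.mem_filter.1 huv'.2).2
    obtain ⟨p0, p1, p2⟩ := between (hnx2 σ hσ) hu hv
    obtain ⟨r0, r1, r2⟩ := between (hnx2 σ' hσ') hu' hv'
    rw [← he] at r0 r1 r2
    have hσσ' : σ = σ' := by
      rcases lt_trichotomy σ σ' with h | h | h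
      · exfalso
        have h3 := hnx3 σ hσ σ' (Finset.mem_of_mem_erase hσ') h
        nlinarith
      · exact h
      · exfalso
        have h3 := hnx3 σ' hσ' σ (Finset.mem_of_mem_erase hσ) h
        nlinarith
    subst hσσ'
    have hlt := hnx2 σ hσ
    have e1 : u.1 + v.1 = u'.1 + v'.1 := congrArg Prod.fst he
    have e2 : u.2 + v.2 = u'.2 + v'.2 := congrArg Prod.snd he
    rw [hu.2, hv.2, hu'.2, hv'.2] at e2
    have e3 : (nx σ - σ) * (v.1 - v'.1) = 0 := by
      linear_combination e2 - σ * e1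
    have e4 : v.1 = v'.1 := by
      rcases mul_eq_zero.1 e3 with h | h
      · linarith
      · linarith
    have e5 : u.1 = u'.1 := by linarith
    have e6 : u = u' := Prod.ext e5 (by rw [hu.2, hu'.2, e5])
    have e7 : v = v' := Prod.ext e4 (by rw [hv.2, hv'.2, e4])
    rw [e6, e7]

end Pool.Agent.Work.MP_916cc8_co.SD
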