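import Pool.Agent.Work.MP_916cc8_co.SD.Cones

/-! Small doubling: counting triangles of a given area. -/

set_option autoImplicit false

namespace Pool.Agent.Work.MP_916cc8_co.SD

open Finset
open scoped Pointwise

/-- Twice the signed area. -/
noncomputable def ar (p q r : ℝ × ℝ) : ℝ := (q.1 - p.1) * (r.2 - p.2) - (q.2 - p.2) * (r.1 - p.1)

/-- The ordered triples of `P` with twice the signed area equal to `A`. -/
noncomputable def tri (P : Finset (ℝ × ℝ)) (A : ℝ) : Finset (((ℝ × ℝ) × (ℝ × ℝ)) × (ℝ × ℝ)) :=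
  ((P ×ˢ P) ×ˢ P).filter fun z => ar z.1.1 z.1.2 z.2 = A

/-- The slope of a line through two points. -/
noncomputable def sl (p q : ℝ × ℝ) : ℝ := (q.2 - p.2) / (q.1 - p.1)

/-- The intercept of the line of slope `σ` through `p`. -/
noncomputable def ic (σ : ℝ) (p : ℝ × ℝ) : ℝ := p.2 - σ * p.1

/-- The largest number of points of `P` on a line of slope `σ`. -/
noncomputable def mm (P : Finset (ℝ × ℝ)) (σ : ℝ) : ℕ := P.sup fun p => (ln P σ (ic σ p)).card

theorem mem_ln {P : Finset (ℝ × ℝ)} {σ c : ℝ} {q : ℝ × ℝ} :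
    q ∈ ln P σ c ↔ q ∈ P ∧ ic σ q = c := by
  unfold ln ic
  rw [Finset.mem_filter]
  constructor
  · rintro ⟨h1, h2⟩
    exact ⟨h1, by rw [h2]; ring⟩
  · rintro ⟨h1, h2⟩
    exact ⟨h1, by rw [← h2]; ring⟩

theorem ln_le_mm (P : Finset (ℝ × ℝ)) (σ c : ℝ) : (ln P σ c).card ≤ mm P σ := by
  rcases (ln P σ c).eq_empty_or_nonempty with h | ⟨q, hq⟩
  · rw [h]
    simp
  · obtain ⟨hqP, hqc⟩ := mem_ln.1 hq
    rw [← hqc]
    exact Finset.le_sup (f := fun p => (ln P σ (ic σ p)).card) hqP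

theorem exists_mm {P : Finset (ℝ × ℝ)} {σ : ℝ} {j : ℕ} (h : j < mm P σ) :
    ∃ c, j < (ln P σ c).card := by
  unfold mm at h
  rw [Finset.lt_sup_iff] at h
  obtain ⟨p, _, hp⟩ := h
  exact ⟨_, hp⟩

theorem ic_eq {p q r : ℝ × ℝ} {A : ℝ} (h : ar p q r = A) (hpq : q.1 ≠ p.1) :
    ic (sl p q) r = ic (sl p q) p + A / (q.1 - p.1) := by
  have h1 : q.1 - p.1 ≠ 0 := sub_ne_zero.2 hpq
  unfold ic sl
  rw [← h]
  unfold ar
  field_simp
  ring

theorem ic_same {p q : ℝ × ℝ} (hpq : q.1 ≠ p.1) : ic (sl p q) q = ic (sl p q) p := by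
  have h1 : q.1 - p.1 ≠ 0 := sub_ne_zero.2 hpq
  unfold ic sl
  field_simp
  ring

/-- the vertical pairs -/
theorem vertical (P : Finset (ℝ × ℝ)) {A : ℝ} (hA : A ≠ 0) :
    ((tri P A).filter fun z => z.1.2.1 = z.1.1.1).card ≤ P.card ^ 2 := by
  classical
  rw [sq, ← Finset.card_product]
  refine Finset.card_le_card_of_injOn (fun z => (z.1.1, z.2)) ?_ ?_
  · intro z hz
    have h1 := (Finset.mem_filter.1 (Finset.mem_filter.1 (Finset.mem_coe.1 hz)).1).1
    rw [Finset.mem_product, Finset.mem_product] at h1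
    exact Finset.mem_coe.2 (Finset.mem_product.2 ⟨h1.1.1, h1.2⟩)
  · rintro ⟨⟨p, q⟩, r⟩ hz ⟨⟨p', q'⟩, r'⟩ hw he
    obtain ⟨h1, h2⟩ := Finset.mem_filter.1 (Finset.mem_coe.1 hz)
    obtain ⟨h3, h4⟩ := Finset.mem_filter.1 (Finset.mem_coe.1 hw)
    have h5 := (Finset.mem_filter.1 h1).2
    have h6 := (Finset.mem_filter.1 h3).2
    simp only [Prod.mk.injEq] at he h2 h4 h5 h6
    obtain ⟨rfl, rfl⟩ := he
    unfold ar at h5 h6
    rw [h2, sub_self, zero_mul, zero_sub] at h5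
    rw [h4, sub_self, zero_mul, zero_sub] at h6
    have h7 : r.1 - p.1 ≠ 0 := by
      intro h0
      rw [h0, mul_zero, neg_zero] at h5
      exact hA h5.symm
    have h8 : (q.2 - q'.2) * (r.1 - p.1) = 0 := by linear_combination h6 - h5
    have h9 : q.2 = q'.2 := by
      rcases mul_eq_zero.1 h8 with h | h
      · linarith
      · exact absurd h h7
    have h10 : q = q' := Prod.ext (h2.trans h4.symm) h9
    rw [h10]

/-- The triples whose first two points have slope `σ`. -/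
noncomputable def ts (P : Finset (ℝ × ℝ)) (A σ : ℝ) : Finset (((ℝ × ℝ) × (ℝ × ℝ)) × (ℝ × ℝ)) :=
  (tri P A).filter fun z => z.1.2.1 ≠ z.1.1.1 ∧ sl z.1.1 z.1.2 = σ

theorem ts_mem {P : Finset (ℝ × ℝ)} {A σ : ℝ} {p q r : ℝ × ℝ} (h : ((p, q), r) ∈ ts P A σ) :
    p ∈ P ∧ q ∈ P ∧ r ∈ P ∧ q.1 ≠ p.1 ∧ sl p q = σ ∧ ic σ q = ic σ p ∧
      ic σ r = ic σ p + A / (q.1 - p.1) ∧ ar p q r = A := by
  obtain ⟨h1, h2, h3⟩ := Finset.mem_filter.1 h
  obtain ⟨h4, h5⟩ := Finset.mem_filter.1 h1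
  rw [Finset.mem_product, Finset.mem_product] at h4
  simp only at h2 h3 h4 h5
  refine ⟨h4.1.1, h4.1.2, h4.2, h2, h3, ?_, ?_, h5⟩
  · rw [← h3]
    exact ic_same h2
  · rw [← h3]
    exact ic_eq h5 h2

theorem ts_le_sq (P : Finset (ℝ × ℝ)) {A σ : ℝ} (hA : A ≠ 0) :
    (ts P A σ).card ≤ P.card * P.card := by
  classical
  rw [← Finset.card_product]
  refine Finset.card_le_card_of_injOn (fun z => (z.1.1, z.2)) ?_ ?_
  · rintro ⟨⟨p, q⟩, r⟩ hz
    obtain ⟨h1, _, h3, _⟩ := ts_mem (Finset.mem_coe.1 hz)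
    exact Finset.mem_coe.2 (Finset.mem_product.2 ⟨h1, h3⟩)
  · rintro ⟨⟨p, q⟩, r⟩ hz ⟨⟨p', q'⟩, r'⟩ hw he
    obtain ⟨_, _, _, h4, h5, h6, h7, _⟩ := ts_mem (Finset.mem_coe.1 hz)
    obtain ⟨_, _, _, k4, k5, k6, k7, _⟩ := ts_mem (Finset.mem_coe.1 hw)
    simp only [Prod.mk.injEq] at he
    obtain ⟨rfl, rfl⟩ := he
    have e1 : q.1 - p.1 ≠ 0 := sub_ne_zero.2 h4
    have e2 : q'.1 - p.1 ≠ 0 := sub_ne_zero.2 k4
    have e3 : A / (q.1 - p.1) = A / (q'.1 - p.1) := by linarith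
    rw [div_eq_div_iff e1 e2] at e3
    have e4 : q'.1 - p.1 = q.1 - p.1 := mul_left_cancel₀ hA e3
    have e5 : q.1 = q'.1 := by linarith
    have e6 : q.2 = q'.2 := by
      unfold ic at h6 k6
      rw [← e5] at k6
      linarith
    have e7 : q = q' := Prod.ext e5 e6
    rw [e7]

theorem ts_le_mm (P : Finset (ℝ × ℝ)) (A σ : ℝ) :
    (ts P A σ).card ≤ P.card * (mm P σ) ^ 2 := by
  classical
  have h1 : (ts P A σ).card ≤ mm P σ * ((ts P A σ).image fun z => z.1).card := by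
    refine Finset.card_le_mul_card_image _ _ fun b hb => ?_
    obtain ⟨p, q⟩ := b
    refine le_trans ?_ (ln_le_mm P σ (ic σ p + A / (q.1 - p.1)))
    refine Finset.card_le_card_of_injOn (fun z => z.2) ?_ ?_
    · rintro ⟨⟨p', q'⟩, r⟩ hz
      obtain ⟨h2, h3⟩ := Finset.mem_filter.1 (Finset.mem_coe.1 hz)
      simp only [Prod.mk.injEq] at h3
      obtain ⟨rfl, rfl⟩ := h3
      obtain ⟨_, _, k3, _, _, _, k7, _⟩ := ts_mem h2
      exact Finset.mem_coe.2 (mem_ln.2 ⟨k3, k7⟩)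
    · intro z hz w hw he
      have e1 := (Finset.mem_filter.1 (Finset.mem_coe.1 hz)).2
      have e2 := (Finset.mem_filter.1 (Finset.mem_coe.1 hw)).2
      exact Prod.ext (e1.trans e2.symm) he
  have h2 : ((ts P A σ).image fun z => z.1).card ≤ mm P σ * P.card := by
    refine Finset.card_le_mul_card_image_of_maps_to (f := fun z : (ℝ × ℝ) × (ℝ × ℝ) => z.1)
      (t := P) ?_ _ ?_
    · intro z hz
      obtain ⟨⟨⟨p, q⟩, r⟩, hw, rfl⟩ := Finset.mem_image.1 hz
      exact (ts_mem hw).1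
    · intro p _
      refine le_trans ?_ (ln_le_mm P σ (ic σ p))
      refine Finset.card_le_card_of_injOn (fun z => z.2) ?_ ?_
      · intro z hz
        obtain ⟨h2, h3⟩ := Finset.mem_filter.1 (Finset.mem_coe.1 hz)
        obtain ⟨⟨⟨p', q⟩, r⟩, hw, rfl⟩ := Finset.mem_image.1 h2
        simp only at h3
        subst h3
        obtain ⟨_, k2, _, _, _, k6, _, _⟩ := ts_mem hw
        exact Finset.mem_coe.2 (mem_ln.2 ⟨k2, k6⟩)
      · intro z hz w hw he
        have e1 := (Finset.mem_filter.1 (Finset.mem_coe.1 hz)).2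
        have e2 := (Finset.mem_filter.1 (Finset.mem_coe.1 hw)).2
        exact Prod.ext (e1.trans e2.symm) he
  calc (ts P A σ).card ≤ mm P σ * ((ts P A σ).image fun z => z.1).card := h1
    _ ≤ mm P σ * (mm P σ * P.card) := Nat.mul_le_mul_left _ h2
    _ = P.card * (mm P σ) ^ 2 := by ring

/-- the triples whose third point lies on a poor line -/
theorem poor (P : Finset (ℝ × ℝ)) (A : ℝ) (k : ℕ) :
    ((tri P A).filter fun z => z.1.2.1 ≠ z.1.1.1 ∧
      (ln P (sl z.1.1 z.1.2) (ic (sl z.1.1 z.1.2) z.2)).card ≤ k).card ≤ k * P.card ^ 2 := by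
  classical
  rw [sq, ← Finset.card_product]
  refine Finset.card_le_mul_card_image_of_maps_to
    (f := fun z : ((ℝ × ℝ) × (ℝ × ℝ)) × (ℝ × ℝ) => z.1) (t := P ×ˢ P) ?_ _ ?_
  · intro z hz
    have h1 := (Finset.mem_filter.1 (Finset.mem_filter.1 hz).1).1
    exact (Finset.mem_product.1 h1).1
  · rintro ⟨p, q⟩ _
    set F := (((tri P A).filter fun z => z.1.2.1 ≠ z.1.1.1 ∧
      (ln P (sl z.1.1 z.1.2) (ic (sl z.1.1 z.1.2) z.2)).card ≤ k).filter
        fun z => z.1 = (p, q)) with hF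
    rcases F.eq_empty_or_nonempty with h0 | ⟨w, hw⟩
    · rw [h0]
      simp
    · obtain ⟨h1, h2⟩ := Finset.mem_filter.1 hw
      obtain ⟨h3, h4, h5⟩ := Finset.mem_filter.1 h1
      have h6 := (Finset.mem_filter.1 h3).2
      rw [h2] at h4 h5 h6
      simp only at h4 h5 h6
      refine le_trans ?_ h5
      refine Finset.card_le_card_of_injOn (fun z => z.2) ?_ ?_
      · intro z hz
        obtain ⟨k1, k2⟩ := Finset.mem_filter.1 (Finset.mem_coe.1 hz)
        obtain ⟨k3, k4, k5⟩ := Finset.mem_filter.1 k1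
        have k6 := (Finset.mem_filter.1 k3)
        have k7 := (Finset.mem_product.1 k6.1).2
        have k8 := k6.2
        rw [k2] at k8
        simp only at k8
        refine Finset.mem_coe.2 (mem_ln.2 ⟨k7, ?_⟩)
        rw [ic_eq k8 h4, ic_eq h6 h4]
      · intro z hz w hw he
        have e1 := (Finset.mem_filter.1 (Finset.mem_coe.1 hz)).2
        have e2 := (Finset.mem_filter.1 (Finset.mem_coe.1 hw)).2
        exact Prod.ext (e1.trans e2.symm) he

theorem sum_odd (k T : ℕ) : T ^ 2 ≤ k ^ 2 + ∑ j ∈ Finset.Ico k T, (2 * j + 1) := by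
  induction T with
  | zero => positivity
  | succ T ih =>
    rcases Nat.lt_or_ge T k with h | h
    · have h1 : (T + 1) ^ 2 ≤ k ^ 2 := Nat.pow_le_pow_left h 2
      omega
    · rw [Finset.sum_Ico_succ_top h]
      nlinarith

/-- the layers -/
theorem layers (k m S n : ℕ) (hn : n ≤ S ^ 2) :
    min (m ^ 2) n ≤ k ^ 2 + ∑ j ∈ (Finset.Ico k S).filter (fun j => j < m), (2 * j + 1) := by
  have h1 : (Finset.Ico k S).filter (fun j => j < m) = Finset.Ico k (min m S) := by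
    ext j
    simp only [Finset.mem_filter, Finset.mem_Ico, lt_min_iff]
    tauto
  rw [h1]
  refine le_trans ?_ (sum_odd k (min m S))
  rcases le_total m S with h | h
  · rw [min_eq_left h]
    exact min_le_left _ _
  · rw [min_eq_right h]
    exact (min_le_right _ _).trans hn

/-- **The count by directions.** -/
theorem count (P : Finset (ℝ × ℝ)) {A : ℝ} (hA : A ≠ 0) (k S : ℕ) (hS : P.card ≤ S ^ 2) :
    (tri P A).card ≤ P.card ^ 2 + k * P.card ^ 2 + P.card *
      (k ^ 2 * (((P ×ˢ P).image fun z => sl z.1 z.2).filter fun σ => k < mm P σ).card +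
      ∑ j ∈ Finset.Ico k S, (2 * j + 1) *
        (((P ×ˢ P).image fun z => sl z.1 z.2).filter fun σ => j < mm P σ).card) := by
  classical
  set S0 := (P ×ˢ P).image fun z => sl z.1 z.2 with hS0
  have h1 : tri P A ⊆ ((tri P A).filter fun z => z.1.2.1 = z.1.1.1) ∪
      (((tri P A).filter fun z => z.1.2.1 ≠ z.1.1.1 ∧
        (ln P (sl z.1.1 z.1.2) (ic (sl z.1.1 z.1.2) z.2)).card ≤ k) ∪
      (S0.filter fun σ => k < mm P σ).biUnion fun σ => ts P A σ) := by
    intro z hz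
    rw [Finset.mem_union, Finset.mem_union]
    by_cases h0 : z.1.2.1 = z.1.1.1
    · exact Or.inl (Finset.mem_filter.2 ⟨hz, h0⟩)
    · right
      by_cases h2 : (ln P (sl z.1.1 z.1.2) (ic (sl z.1.1 z.1.2) z.2)).card ≤ k
      · exact Or.inl (Finset.mem_filter.2 ⟨hz, h0, h2⟩)
      · right
        rw [Finset.mem_biUnion]
        refine ⟨sl z.1.1 z.1.2, ?_, ?_⟩
        · refine Finset.mem_filter.2 ⟨?_, ?_⟩
          · rw [hS0, Finset.mem_image]
            exact ⟨z.1, (Finset.mem_product.1 (Finset.mem_filter.1 hz).1).1, rfl⟩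
          · exact lt_of_lt_of_le (not_le.1 h2) (ln_le_mm _ _ _)
        · exact Finset.mem_filter.2 ⟨hz, h0, rfl⟩
  have h2 := (Finset.card_le_card h1).trans (Finset.card_union_le _ _)
  have h3 := Finset.card_union_le ((tri P A).filter fun z => z.1.2.1 ≠ z.1.1.1 ∧
        (ln P (sl z.1.1 z.1.2) (ic (sl z.1.1 z.1.2) z.2)).card ≤ k)
      ((S0.filter fun σ => k < mm P σ).biUnion fun σ => ts P A σ)
  have h4 := vertical P hA
  have h5 := poor P A k
  have h6 : ((S0.filter fun σ => k < mm P σ).biUnion fun σ => ts P A σ).card ≤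
      P.card * (k ^ 2 * (S0.filter fun σ => k < mm P σ).card +
      ∑ j ∈ Finset.Ico k S, (2 * j + 1) * (S0.filter fun σ => j < mm P σ).card) := by
    refine Finset.card_biUnion_le.trans ?_
    have h7 : ∀ σ ∈ S0.filter fun σ => k < mm P σ, (ts P A σ).card ≤ P.card * (k ^ 2 +
        ∑ j ∈ Finset.Ico k S, if j < mm P σ then (2 * j + 1) else 0) := by
      intro σ _
      have h8 : (ts P A σ).card ≤ P.card * min ((mm P σ) ^ 2) P.card := by
        rcases le_total ((mm P σ) ^ 2) P.card with h | h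
        · rw [min_eq_left h]
          exact ts_le_mm P A σ
        · rw [min_eq_right h]
          exact ts_le_sq P hA
      refine h8.trans (Nat.mul_le_mul_left _ ?_)
      rw [← Finset.sum_filter]
      exact layers k (mm P σ) S P.card hS
    refine (Finset.sum_le_sum h7).trans ?_
    rw [← Finset.mul_sum]
    refine Nat.mul_le_mul_left _ ?_
    rw [Finset.sum_add_distrib, Finset.sum_const, smul_eq_mul, mul_comm _ (k ^ 2)]
    refine Nat.add_le_add_left ?_ _
    rw [Finset.sum_comm]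
    refine Finset.sum_le_sum fun j hj => ?_
    rw [← Finset.sum_filter, Finset.sum_const, smul_eq_mul, mul_comm]
    refine Nat.mul_le_mul_left _ (Finset.card_le_card ?_)
    intro σ hσ
    rw [Finset.mem_filter, Finset.mem_filter] at hσ
    exact Finset.mem_filter.2 ⟨hσ.1.1, hσ.2⟩
  omega

end Pool.Agent.Work.MP_916cc8_co.SD
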