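import Pool.Agent.Work.MP_916cc8_co.SD.Count

/-! Small doubling: the bound for the number of triangles. -/

set_option autoImplicit false

namespace Pool.Agent.Work.MP_916cc8_co.SD

open Finset
open scoped Pointwise

/-- the number of slopes of rich lines -/
theorem slopes {k : ℕ} (hk : 0 < k) (X : Fin k → Finset (ℝ × ℝ)) (P : Finset (ℝ × ℝ))
    (hP : P ⊆ Finset.univ.biUnion X) (S0 : Finset ℝ) {j : ℕ} (hj : k ≤ j) :
    ((S0.filter fun σ => j < mm P σ).card : ℝ) ≤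
      k + 4 * k ^ 2 * (∑ i, (((X i - X i) + (X i - X i)).card : ℝ)) / (j : ℝ) ^ 2 := by
  classical
  set t := j / k with ht
  have hkj : j < k * (t + 1) := by
    rw [mul_comm]
    exact Nat.lt_mul_of_div_lt (Nat.lt_succ_self _) hk
  have ht1 : 1 ≤ t := (Nat.one_le_div_iff hk).2 hj
  have hsub : (S0.filter fun σ => j < mm P σ) ⊆
      Finset.univ.biUnion fun i : Fin k => S0.filter fun σ => ∃ c, t < (ln (X i) σ c).card := by
    intro σ hσ
    obtain ⟨h1, h2⟩ := Finset.mem_filter.1 hσ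
    obtain ⟨c, hc⟩ := exists_mm h2
    have h3 : ln P σ c ⊆ Finset.univ.biUnion fun i => ln (X i) σ c := by
      intro q hq
      obtain ⟨h4, h5⟩ := Finset.mem_filter.1 hq
      obtain ⟨i, hi, hqi⟩ := Finset.mem_biUnion.1 (hP h4)
      exact Finset.mem_biUnion.2 ⟨i, hi, Finset.mem_filter.2 ⟨hqi, h5⟩⟩
    have h4 := (Finset.card_le_card h3).trans Finset.card_biUnion_le
    have h5 : ∃ i : Fin k, t < (ln (X i) σ c).card := by
      by_contra hcon
      push Not at hcon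
      have h6 : ∑ i : Fin k, (ln (X i) σ c).card ≤ k * t := by
        calc ∑ i : Fin k, (ln (X i) σ c).card ≤ ∑ i : Fin k, t :=
              Finset.sum_le_sum fun i _ => hcon i
          _ = k * t := by simp
      have h7 : k * t ≤ j := Nat.mul_div_le j k
      omega
    obtain ⟨i, hi⟩ := h5
    exact Finset.mem_biUnion.2 ⟨i, Finset.mem_univ _, Finset.mem_filter.2 ⟨h1, c, hi⟩⟩
  have h1 := (Finset.card_le_card hsub).trans Finset.card_biUnion_le
  have ht0 : (0 : ℝ) < (t : ℝ) := by exact_mod_cast ht1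
  have hk0 : (0 : ℝ) < (k : ℝ) := by exact_mod_cast hk
  have hj0 : (0 : ℝ) < (j : ℝ) := by exact_mod_cast (lt_of_lt_of_le hk hj)
  have h2 : ∀ i : Fin k, ((S0.filter fun σ => ∃ c, t < (ln (X i) σ c).card).card : ℝ) ≤
      1 + (((X i - X i) + (X i - X i)).card : ℝ) / (t : ℝ) ^ 2 := by
    intro i
    have h3 := directions (X i) (S0.filter fun σ => ∃ c, t < (ln (X i) σ c).card) t
      (fun σ hσ => (Finset.mem_filter.1 hσ).2)
    set N := (S0.filter fun σ => ∃ c, t < (ln (X i) σ c).card).card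
    have h4 : (((N - 1 : ℕ) : ℝ)) * (t : ℝ) ^ 2 ≤ (((X i - X i) + (X i - X i)).card : ℝ) := by
      exact_mod_cast h3
    have h5 : (N : ℝ) ≤ ((N - 1 : ℕ) : ℝ) + 1 := by
      have : N ≤ (N - 1) + 1 := by omega
      exact_mod_cast this
    rw [← le_div_iff₀ (by positivity)] at h4
    linarith
  have h3 : ((S0.filter fun σ => j < mm P σ).card : ℝ) ≤
      ∑ i : Fin k, (1 + (((X i - X i) + (X i - X i)).card : ℝ) / (t : ℝ) ^ 2) := by
    refine le_trans ?_ (Finset.sum_le_sum fun i _ => h2 i)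
    exact_mod_cast h1
  rw [Finset.sum_add_distrib, ← Finset.sum_div] at h3
  have h4 : ∑ i : Fin k, (1 : ℝ) = k := by simp
  rw [h4] at h3
  refine h3.trans ?_
  set M : ℝ := ∑ i, (((X i - X i) + (X i - X i)).card : ℝ)
  have hM : 0 ≤ M := Finset.sum_nonneg fun i _ => Nat.cast_nonneg _
  have h5 : M / (t : ℝ) ^ 2 ≤ 4 * k ^ 2 * M / (j : ℝ) ^ 2 := by
    rw [div_le_div_iff₀ (by positivity) (by positivity)]
    have h6 : (j : ℝ) ≤ 2 * k * t := by
      have h7 : j ≤ 2 * k * t := by nlinarith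
      exact_mod_cast h7
    have h8 : (j : ℝ) ^ 2 ≤ (2 * k * t) ^ 2 := pow_le_pow_left₀ hj0.le h6 2
    calc M * (j : ℝ) ^ 2 ≤ M * (2 * k * t) ^ 2 := mul_le_mul_of_nonneg_left h8 hM
      _ = 4 * k ^ 2 * M * (t : ℝ) ^ 2 := by ring
  linarith

theorem sum_odd_le (k S : ℕ) : ∑ j ∈ Finset.Ico k S, (2 * j + 1) ≤ S ^ 2 := by
  have h : ∀ T : ℕ, ∑ j ∈ Finset.range T, (2 * j + 1) = T ^ 2 := by
    intro T
    induction T with
    | zero => simp
    | succ T ih =>
      rw [Finset.sum_range_succ, ih]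
      ring
  rw [← h S]
  refine Finset.sum_le_sum_of_subset fun j hj => ?_
  rw [Finset.mem_Ico] at hj
  exact Finset.mem_range.2 hj.2

theorem sum_inv_le {k S : ℕ} (hk : 0 < k) :
    ∑ j ∈ Finset.Ico k S, (1 : ℝ) / (j : ℝ) ≤ 1 + Real.log S := by
  have h1 : ∑ j ∈ Finset.Ico k S, (1 : ℝ) / (j : ℝ) ≤ ((harmonic S : ℚ) : ℝ) := by
    rw [harmonic]
    push_cast
    rw [Finset.sum_Ico_eq_sum_range]
    refine le_trans (Finset.sum_le_sum (g := fun i : ℕ => ((i : ℝ) + 1)⁻¹) fun i _ => ?_) ?_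
    · have hk1 : (1 : ℝ) ≤ (k : ℝ) := by exact_mod_cast hk
      push_cast
      rw [one_div]
      apply inv_anti₀ (by positivity)
      linarith
    · refine Finset.sum_le_sum_of_subset_of_nonneg ?_ fun i _ _ => by positivity
      exact Finset.range_mono (Nat.sub_le _ _)
  exact h1.trans (harmonic_le_one_add_log S)

theorem card_le_M (Y : Finset (ℝ × ℝ)) : Y.card ≤ ((Y - Y) + (Y - Y)).card := by
  classical
  rcases Y.eq_empty_or_nonempty with rfl | ⟨y, hy⟩
  · simp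
  · refine Finset.card_le_card_of_injOn (fun x => (x - y) + (y - y)) ?_ ?_
    · intro x hx
      exact Finset.mem_coe.2 (Finset.add_mem_add (Finset.sub_mem_sub (Finset.mem_coe.1 hx) hy)
        (Finset.sub_mem_sub hy hy))
    · intro a _ b _ hab
      simpa using hab

/-- **Main bound.** -/
theorem bound {k : ℕ} (X : Fin k → Finset (ℝ × ℝ)) (hX : ∀ i, (X i).Nonempty)
    (P : Finset (ℝ × ℝ)) (hP : P ⊆ Finset.univ.biUnion X) {A : ℝ} (hA : A ≠ 0) :
    ((tri P A).card : ℝ) ≤ 35 * k ^ 2 * P.card *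
      (∑ i, (((X i - X i) + (X i - X i)).card : ℝ)) * (1 + Real.log P.card) := by
  classical
  set M : ℝ := ∑ i, (((X i - X i) + (X i - X i)).card : ℝ) with hMdef
  have hM0 : 0 ≤ M := Finset.sum_nonneg fun i _ => Nat.cast_nonneg _
  rcases P.eq_empty_or_nonempty with h0 | hne
  · rw [h0]
    simp [tri]
  have hn1 : 1 ≤ P.card := hne.card_pos
  have hk : 0 < k := by
    rcases Nat.eq_zero_or_pos k with h | h
    · subst h
      obtain ⟨p, hp⟩ := hne
      obtain ⟨i, _⟩ := Finset.mem_biUnion.1 (hP hp)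
      exact i.elim0
    · exact h
  set n := P.card with hn
  set S := Nat.sqrt n + 1 with hSdef
  have hS : n ≤ S ^ 2 := by
    have := Nat.lt_succ_sqrt n
    rw [sq]
    exact this.le
  have hs1 : 1 ≤ Nat.sqrt n := Nat.sqrt_pos.2 hn1
  have hs2 : Nat.sqrt n * Nat.sqrt n ≤ n := Nat.sqrt_le n
  have hS4 : S ^ 2 ≤ 4 * n := by nlinarith
  have hS2 : S ≤ 2 * n := by
    have := Nat.sqrt_le_self n
    omega
  have hc := count P hA k S hS
  set S0 := (P ×ˢ P).image fun z => sl z.1 z.2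
  -- lower bounds for M
  have hMn : (n : ℝ) ≤ M := by
    have h1 := (Finset.card_le_card hP).trans Finset.card_biUnion_le
    have h2 : n ≤ ∑ i, ((X i - X i) + (X i - X i)).card :=
      h1.trans (Finset.sum_le_sum fun i _ => card_le_M (X i))
    rw [hMdef]
    exact_mod_cast h2
  have hMk : (k : ℝ) ≤ M := by
    have h2 : ∑ i : Fin k, 1 ≤ ∑ i, ((X i - X i) + (X i - X i)).card :=
      Finset.sum_le_sum fun i _ => le_trans (hX i).card_pos (card_le_M (X i))
    simp only [Finset.sum_const, Finset.card_univ, Fintype.card_fin, smul_eq_mul, mul_one] at h2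
    rw [hMdef]
    exact_mod_cast h2
  have hk1 : (1 : ℝ) ≤ (k : ℝ) := by exact_mod_cast hk
  have hn1' : (1 : ℝ) ≤ (n : ℝ) := by exact_mod_cast hn1
  have hN : ∀ j, k ≤ j → ((S0.filter fun σ => j < mm P σ).card : ℝ) ≤
      k + 4 * k ^ 2 * M / (j : ℝ) ^ 2 := fun j hj => slopes hk X P hP S0 hj
  have hc' : ((tri P A).card : ℝ) ≤ (n : ℝ) ^ 2 + k * (n : ℝ) ^ 2 + n *
      ((k : ℝ) ^ 2 * ((S0.filter fun σ => k < mm P σ).card : ℝ) +
      ∑ j ∈ Finset.Ico k S, (2 * (j : ℝ) + 1) *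
        ((S0.filter fun σ => j < mm P σ).card : ℝ)) := by
    exact_mod_cast hc
  clear hc
  clear_value M S n
  have hNk : (k : ℝ) ^ 2 * ((S0.filter fun σ => k < mm P σ).card : ℝ) ≤
      (k : ℝ) ^ 2 * (k + 4 * M) := by
    refine mul_le_mul_of_nonneg_left ?_ (by positivity)
    refine (hN k le_rfl).trans (le_of_eq ?_)
    field_simp
  have hsum : ∑ j ∈ Finset.Ico k S, (2 * (j : ℝ) + 1) *
      ((S0.filter fun σ => j < mm P σ).card : ℝ) ≤
        k * (4 * n) + 12 * k ^ 2 * M * (1 + Real.log S) := by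
    have h1 : ∀ j ∈ Finset.Ico k S, (2 * (j : ℝ) + 1) *
        ((S0.filter fun σ => j < mm P σ).card : ℝ) ≤
          k * (2 * (j : ℝ) + 1) + 12 * k ^ 2 * M * (1 / (j : ℝ)) := by
      intro j hj
      rw [Finset.mem_Ico] at hj
      have hj1 : (1 : ℝ) ≤ (j : ℝ) := by exact_mod_cast (hk.trans_le hj.1)
      have h2 := mul_le_mul_of_nonneg_left (hN j hj.1) (by positivity : (0 : ℝ) ≤ 2 * (j : ℝ) + 1)
      refine h2.trans ?_
      have h3 : (2 * (j : ℝ) + 1) * (4 * k ^ 2 * M / (j : ℝ) ^ 2) ≤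
          12 * k ^ 2 * M * (1 / (j : ℝ)) := by
        have h4 : 12 * (k : ℝ) ^ 2 * M * (1 / (j : ℝ)) =
            (3 * (j : ℝ)) * (4 * k ^ 2 * M / (j : ℝ) ^ 2) := by
          field_simp
          ring
        rw [h4]
        apply mul_le_mul_of_nonneg_right _ (by positivity)
        linarith
      linarith
    refine (Finset.sum_le_sum h1).trans ?_
    rw [Finset.sum_add_distrib, ← Finset.mul_sum, ← Finset.mul_sum]
    have h2 : ∑ j ∈ Finset.Ico k S, (2 * (j : ℝ) + 1) ≤ 4 * n := by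
      have h3 := (sum_odd_le k S).trans hS4
      exact_mod_cast h3
    have h4 := mul_le_mul_of_nonneg_left h2 (by positivity : (0 : ℝ) ≤ (k : ℝ))
    have h5 := mul_le_mul_of_nonneg_left (sum_inv_le (k := k) (S := S) hk)
      (by positivity : (0 : ℝ) ≤ 12 * (k : ℝ) ^ 2 * M)
    linarith
  have hlog : Real.log S ≤ 1 + Real.log n := by
    have h1 : (S : ℝ) ≤ 2 * n := by exact_mod_cast hS2
    have h2 : (0 : ℝ) < (S : ℝ) := by
      have : 0 < S := by omega
      exact_mod_cast this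
    have h3 := Real.log_le_log h2 h1
    rw [Real.log_mul (by norm_num) (by positivity)] at h3
    have h4 : Real.log 2 ≤ 1 := by
      have := Real.log_two_lt_d9
      linarith
    linarith
  have hlogn : 0 ≤ Real.log n := Real.log_nonneg hn1'
  refine hc'.trans ?_
  have hkk : (1 : ℝ) ≤ (k : ℝ) ^ 2 := one_le_pow₀ hk1
  have hkk' : (k : ℝ) ≤ (k : ℝ) ^ 2 := by nlinarith
  have e1 : (n : ℝ) ^ 2 ≤ n * (k ^ 2 * M) := by
    rw [sq]
    apply mul_le_mul_of_nonneg_left _ (by positivity)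
    nlinarith
  have e2 : k * (n : ℝ) ^ 2 ≤ n * (k ^ 2 * M) := by
    have : k * (n : ℝ) ≤ k ^ 2 * M := mul_le_mul hkk' hMn (by positivity) (by positivity)
    calc k * (n : ℝ) ^ 2 = n * (k * (n : ℝ)) := by ring
      _ ≤ _ := mul_le_mul_of_nonneg_left this (by positivity)
  have e3 : (k : ℝ) ^ 2 * (k + 4 * M) ≤ 5 * (k ^ 2 * M) := by
    have : (k : ℝ) ^ 2 * k ≤ k ^ 2 * M := mul_le_mul_of_nonneg_left hMk (by positivity)
    linarith
  have e4 : k * (4 * (n : ℝ)) ≤ 4 * (k ^ 2 * M) := by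
    have : k * (n : ℝ) ≤ k ^ 2 * M := mul_le_mul hkk' hMn (by positivity) (by positivity)
    linarith
  have e5 : 12 * (k : ℝ) ^ 2 * M * (1 + Real.log S) ≤ 12 * (k ^ 2 * M) * (2 + Real.log n) := by
    have h1 : (0 : ℝ) ≤ 12 * (k : ℝ) ^ 2 * M := by positivity
    calc 12 * (k : ℝ) ^ 2 * M * (1 + Real.log S) ≤ 12 * (k : ℝ) ^ 2 * M * (2 + Real.log n) :=
          mul_le_mul_of_nonneg_left (by linarith) h1
      _ = _ := by ring
  have e6 : (n : ℝ) * ((k : ℝ) ^ 2 * ((S0.filter fun σ => k < mm P σ).card : ℝ) +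
      ∑ j ∈ Finset.Ico k S, (2 * (j : ℝ) + 1) *
        ((S0.filter fun σ => j < mm P σ).card : ℝ)) ≤
      n * (5 * (k ^ 2 * M) + (4 * (k ^ 2 * M) + 12 * (k ^ 2 * M) * (2 + Real.log n))) := by
    apply mul_le_mul_of_nonneg_left _ (by positivity)
    linarith
  have hpos : 0 ≤ (n : ℝ) * (k ^ 2 * M) := by positivity
  have e7 : 0 ≤ (n : ℝ) * (k ^ 2 * M) * Real.log n := by positivity
  calc (n : ℝ) ^ 2 + k * (n : ℝ) ^ 2 + n *
      ((k : ℝ) ^ 2 * ((S0.filter fun σ => k < mm P σ).card : ℝ) +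
      ∑ j ∈ Finset.Ico k S, (2 * (j : ℝ) + 1) *
        ((S0.filter fun σ => j < mm P σ).card : ℝ)) ≤
      n * (k ^ 2 * M) + n * (k ^ 2 * M) + n * (5 * (k ^ 2 * M) + (4 * (k ^ 2 * M) +
        12 * (k ^ 2 * M) * (2 + Real.log n))) := by linarith
    _ = 35 * ((n : ℝ) * (k ^ 2 * M)) + 12 * ((n : ℝ) * (k ^ 2 * M) * Real.log n) := by ring
    _ ≤ 35 * ((n : ℝ) * (k ^ 2 * M)) + 35 * ((n : ℝ) * (k ^ 2 * M) * Real.log n) := by linarith
    _ = 35 * k ^ 2 * n * M * (1 + Real.log n) := by ring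

/-- Plunnecke and Ruzsa. -/
theorem doubling (Y : Finset (ℝ × ℝ)) (hY : Y.Nonempty) (K : ℝ)
    (hK : ((Y + Y).card : ℝ) ≤ K * Y.card) :
    ((((Y - Y) + (Y - Y)).card : ℕ) : ℝ) ≤ K ^ 4 * Y.card := by
  classical
  have h1 := Finset.pluennecke_ruzsa_inequality_nsmul_sub_nsmul_add hY Y 2 2
  have h2 : (2 • Y - 2 • Y) = ((Y - Y) + (Y - Y)) := by
    rw [two_nsmul, sub_add_sub_comm]
  rw [h2] at h1
  have h3 : ((((Y - Y) + (Y - Y)).card : ℕ) : ℝ) ≤
      (((Y + Y).card : ℝ) / (Y.card : ℝ)) ^ (2 + 2) * (Y.card : ℝ) := by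
    have h4 := (NNRat.cast_le (K := ℝ)).2 h1
    push_cast at h4
    exact h4
  have h4 : (0 : ℝ) < (Y.card : ℝ) := by exact_mod_cast hY.card_pos
  have h5 : ((Y + Y).card : ℝ) / (Y.card : ℝ) ≤ K := by
    rw [div_le_iff₀ h4]
    exact hK
  refine h3.trans ?_
  exact mul_le_mul_of_nonneg_right (pow_le_pow_left₀ (by positivity) h5 4) h4.le

end Pool.Agent.Work.MP_916cc8_co.SD
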