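import Mathlib

/-! Triangles of a given area in subsets of the integer lattice. -/

set_option autoImplicit false

namespace Pool.Agent.Work.MP_916cc8_co.Lattice

open Finset

/-- determinant -/
def dt (u v : ℤ × ℤ) : ℤ := u.1 * v.2 - u.2 * v.1

/-- greatest common divisor of the coordinates -/
def gc (v : ℤ × ℤ) : ℕ := Int.gcd v.1 v.2

/-- primitive direction -/
def pd (v : ℤ × ℤ) : ℤ × ℤ := (v.1 / gc v, v.2 / gc v)

theorem gc_pos {v : ℤ × ℤ} (hv : v ≠ 0) : 0 < gc v := by
  unfold gc
  rw [Nat.pos_iff_ne_zero]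
  intro h
  rw [Int.gcd_eq_zero_iff] at h
  exact hv (Prod.ext h.1 h.2)

theorem pd_mul (v : ℤ × ℤ) : (gc v : ℤ) * (pd v).1 = v.1 ∧ (gc v : ℤ) * (pd v).2 = v.2 := by
  unfold pd gc
  exact ⟨Int.mul_ediv_cancel' (Int.gcd_dvd_left _ _), Int.mul_ediv_cancel' (Int.gcd_dvd_right _ _)⟩

theorem pd_coprime {v : ℤ × ℤ} (hv : v ≠ 0) : IsCoprime (pd v).1 (pd v).2 := by
  unfold pd gc
  have h : v.1 ≠ 0 ∨ v.2 ≠ 0 := by
    by_contra hcon
    push Not at hcon
    exact hv (Prod.ext hcon.1 hcon.2)
  have := Int.isCoprime_iff_gcd_eq_one.2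
    (Int.gcd_div_gcd_div_gcd (i := v.1) (j := v.2) (Nat.pos_iff_ne_zero.2 ?_))
  · exact this
  · intro h0
    rw [Int.gcd_eq_zero_iff] at h0
    rcases h with h | h
    · exact h h0.1
    · exact h h0.2

/-- two primitive parallel vectors agree up to sign -/
theorem parallel {u w : ℤ × ℤ} (hu : IsCoprime u.1 u.2) (hw : IsCoprime w.1 w.2)
    (h : dt u w = 0) : u = w ∨ u = -w := by
  unfold dt at h
  obtain ⟨a, b, hab⟩ := hu
  obtain ⟨c, d, hcd⟩ := hw
  -- w = s u, u = t w
  set s := a * w.1 + b * w.2 with hs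
  have h1 : w.1 = s * u.1 := by
    rw [hs]
    linear_combination (-w.1) * hab - b * h
  have h2 : w.2 = s * u.2 := by
    rw [hs]
    linear_combination (-w.2) * hab + a * h
  have h3 : s * (c * u.1 + d * u.2) = 1 := by
    rw [← hcd, h1, h2]
    ring
  rcases Int.isUnit_iff.1 (IsUnit.of_mul_eq_one _ h3) with h4 | h4
  · left
    rw [h4] at h1 h2
    exact Prod.ext (by linarith) (by linarith)
  · right
    rw [h4] at h1 h2
    refine Prod.ext ?_ ?_
    · simp only [Prod.fst_neg]
      linarith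
    · simp only [Prod.snd_neg]
      linarith

/-- the points on a line -/
def row (Q : Finset (ℤ × ℤ)) (u : ℤ × ℤ) (c : ℤ) : Finset (ℤ × ℤ) := Q.filter fun p => dt u p = c

/-- shifted points of a row -/
theorem row_shift (Q : Finset (ℤ × ℤ)) {u : ℤ × ℤ} (hu : u ≠ 0) (c : ℤ) {g : ℤ} (hg : 0 < g)
    (hne : (row Q u c).Nonempty) :
    ((row Q u c).filter fun p => (p.1 + g * u.1, p.2 + g * u.2) ∈ Q).card + 1 ≤
      (row Q u c).card := by
  obtain ⟨m, hm, hmin⟩ := Finset.exists_min_image (row Q u c)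
    (fun p => u.1 * p.1 + u.2 * p.2) hne
  have h1 : ((row Q u c).filter fun p => (p.1 + g * u.1, p.2 + g * u.2) ∈ Q).card ≤
      ((row Q u c).erase m).card := by
    refine Finset.card_le_card_of_injOn (fun p => (p.1 + g * u.1, p.2 + g * u.2)) ?_ ?_
    · intro p hp
      obtain ⟨h2, h3⟩ := Finset.mem_filter.1 (Finset.mem_coe.1 hp)
      have h4 := hmin p h2
      obtain ⟨_, h5⟩ := Finset.mem_filter.1 h2
      rw [Finset.mem_coe, Finset.mem_erase]
      refine ⟨?_, Finset.mem_filter.2 ⟨h3, ?_⟩⟩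
      · intro he
        rw [← he] at h4
        have h6 : 0 < u.1 * u.1 + u.2 * u.2 := by
          rcases eq_or_ne u.1 0 with h0 | h0
          · rcases eq_or_ne u.2 0 with h7 | h7
            · exact absurd (Prod.ext h0 h7) hu
            · have := mul_self_pos.2 h7
              have := mul_self_nonneg u.1
              linarith
          · have := mul_self_pos.2 h0
            have := mul_self_nonneg u.2
            linarith
        have h7 := mul_pos hg h6
        nlinarith
      · unfold dt at h5 ⊢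
        rw [← h5]
        ring
    · intro a _ b _ hab
      rw [Prod.mk.injEq] at hab
      exact Prod.ext (by linarith [hab.1]) (by linarith [hab.2])
  rw [Finset.card_erase_of_mem hm] at h1
  have := hne.card_pos
  omega

/-- the pairs of points on a common line of direction `u` -/
def par (Q : Finset (ℤ × ℤ)) (u : ℤ × ℤ) : Finset ((ℤ × ℤ) × (ℤ × ℤ)) :=
  Q.offDiag.filter fun z => dt u z.1 = dt u z.2

theorem card_par (Q : Finset (ℤ × ℤ)) (u : ℤ × ℤ) (C : Finset ℤ)
    (hC : ∀ p ∈ Q, dt u p ∈ C) :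
    ∑ c ∈ C, (row Q u c).card * ((row Q u c).card - 1) = (par Q u).card := by
  rw [Finset.card_eq_sum_card_fiberwise (f := fun z : (ℤ × ℤ) × (ℤ × ℤ) => dt u z.1) (t := C)]
  · refine Finset.sum_congr rfl fun c _ => ?_
    have h1 : (par Q u).filter (fun z => dt u z.1 = c) = (row Q u c).offDiag := by
      ext z
      simp only [par, row, Finset.mem_filter, Finset.mem_offDiag]
      constructor
      · rintro ⟨⟨⟨h1, h2, h3⟩, h4⟩, h5⟩
        exact ⟨⟨h1, h5⟩, ⟨h2, h4 ▸ h5⟩, h3⟩
      · rintro ⟨⟨h1, h5⟩, ⟨h2, h6⟩, h3⟩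
        exact ⟨⟨⟨h1, h2, h3⟩, h5.trans h6.symm⟩, h5⟩
    rw [h1, Finset.offDiag_card, Nat.mul_sub, mul_one]
  · intro z hz
    have h1 := (Finset.mem_filter.1 (Finset.mem_coe.1 hz)).1
    exact Finset.mem_coe.2 (hC _ (Finset.mem_offDiag.1 h1).1)

/-- the triples for one direction and one length -/
def td (Q : Finset (ℤ × ℤ)) (u : ℤ × ℤ) (g h : ℤ) : Finset ((ℤ × ℤ) × (ℤ × ℤ)) :=
  (Q ×ˢ Q).filter fun z => (z.1.1 + g * u.1, z.1.2 + g * u.2) ∈ Q ∧ dt u z.2 = dt u z.1 + h

theorem td_le (Q : Finset (ℤ × ℤ)) {u : ℤ × ℤ} (hu : u ≠ 0) {g : ℤ} (hg : 0 < g) (h : ℤ) :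
    (td Q u g h).card ≤ (par Q u).card := by
  classical
  set C := Q.image fun p => dt u p with hC
  have hCm : ∀ p ∈ Q, dt u p ∈ C := fun p hp => Finset.mem_image_of_mem _ hp
  have h1 : (td Q u g h).card = ∑ c ∈ C,
      ((row Q u c).filter fun p => (p.1 + g * u.1, p.2 + g * u.2) ∈ Q).card *
        (row Q u (c + h)).card := by
    rw [Finset.card_eq_sum_card_fiberwise (f := fun z : (ℤ × ℤ) × (ℤ × ℤ) => dt u z.1) (t := C)]
    · refine Finset.sum_congr rfl fun c _ => ?_
      rw [← Finset.card_product]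
      congr 1
      ext z
      simp only [td, row, Finset.mem_filter, Finset.mem_product]
      constructor
      · rintro ⟨⟨⟨a1, a2⟩, a3, a4⟩, a5⟩
        exact ⟨⟨⟨a1, a5⟩, a3⟩, a2, by rw [a4, a5]⟩
      · rintro ⟨⟨⟨a1, a5⟩, a3⟩, a2, a4⟩
        exact ⟨⟨⟨a1, a2⟩, a3, by rw [a4, a5]⟩, a5⟩
    · intro z hz
      have h1 := (Finset.mem_filter.1 (Finset.mem_coe.1 hz)).1
      exact Finset.mem_coe.2 (hCm _ (Finset.mem_product.1 h1).1)
  have h2 : ∀ c ∈ C, 2 * (((row Q u c).filter fun p =>
      (p.1 + g * u.1, p.2 + g * u.2) ∈ Q).card * (row Q u (c + h)).card) ≤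
      (row Q u c).card * ((row Q u c).card - 1) +
        (row Q u (c + h)).card * ((row Q u (c + h)).card - 1) := by
    intro c hc
    have hne : (row Q u c).Nonempty := by
      obtain ⟨p, hp, hpc⟩ := Finset.mem_image.1 hc
      exact ⟨p, Finset.mem_filter.2 ⟨hp, hpc⟩⟩
    have h3 := row_shift Q hu c hg hne
    set x := (row Q u c).card
    set y := (row Q u (c + h)).card
    set a := ((row Q u c).filter fun p => (p.1 + g * u.1, p.2 + g * u.2) ∈ Q).card
    clear_value x y a
    obtain ⟨x', rfl⟩ : ∃ x', x = x' + 1 := ⟨x - 1, by omega⟩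
    have h4 : a ≤ x' := by omega
    have h5 : 2 * (a * y) ≤ 2 * (x' * y) := by
      have := Nat.mul_le_mul_right y h4
      omega
    refine h5.trans ?_
    rcases Nat.eq_zero_or_pos y with h0 | h0
    · rw [h0]
      simp
    · obtain ⟨y', rfl⟩ : ∃ y', y = y' + 1 := ⟨y - 1, by omega⟩
      simp only [Nat.add_sub_cancel]
      rcases Nat.lt_or_ge x' (y' + 1) with h6 | h6
      · obtain ⟨t, ht⟩ := Nat.exists_eq_add_of_lt h6
        have h7 : y' = x' + t := by omega
        subst h7
        nlinarith [Nat.zero_le t]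
      · obtain ⟨t, ht⟩ := Nat.exists_eq_add_of_le h6
        subst ht
        nlinarith [Nat.zero_le t]
  have h3 : ∑ c ∈ C, (row Q u c).card * ((row Q u c).card - 1) = (par Q u).card :=
    card_par Q u C hCm
  have h4 : ∑ c ∈ C, (row Q u (c + h)).card * ((row Q u (c + h)).card - 1) ≤ (par Q u).card := by
    have h5 : ∑ c ∈ C, (row Q u (c + h)).card * ((row Q u (c + h)).card - 1) =
        ∑ c ∈ C.image (fun c => c + h), (row Q u c).card * ((row Q u c).card - 1) := by
      refine (Finset.sum_image (s := C) (g := fun c => c + h)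
        (f := fun c => (row Q u c).card * ((row Q u c).card - 1)) ?_).symm
      intro a _ b _ hab
      simpa using hab
    rw [h5]
    have h6 := card_par Q u (C ∪ C.image (fun c => c + h))
      (fun p hp => Finset.mem_union_left _ (hCm p hp))
    rw [← h6]
    exact Finset.sum_le_sum_of_subset Finset.subset_union_right
  have h5 : 2 * (td Q u g h).card ≤ (par Q u).card + (par Q u).card := by
    rw [h1, Finset.mul_sum]
    refine (Finset.sum_le_sum h2).trans ?_
    rw [Finset.sum_add_distrib, h3]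
    omega
  omega

/-- The ordered triples with determinant `k`. -/
def tri (Q : Finset (ℤ × ℤ)) (k : ℤ) : Finset (((ℤ × ℤ) × (ℤ × ℤ)) × (ℤ × ℤ)) :=
  ((Q ×ˢ Q) ×ˢ Q).filter fun z => dt (z.1.2 - z.1.1) (z.2 - z.1.1) = k

/-- **Main bound** for ordered triples. -/
theorem tri_le (Q : Finset (ℤ × ℤ)) {k : ℕ} (hk : 0 < k) :
    (tri Q k).card ≤ 2 * k.divisors.card * (Q.card * (Q.card - 1)) := by
  classical
  set U := Q.offDiag.image fun z => pd (z.2 - z.1) with hU
  have hUne : ∀ z ∈ Q.offDiag, z.2 - z.1 ≠ 0 := fun z hz h0 =>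
    (Finset.mem_offDiag.1 hz).2.2 (sub_eq_zero.1 h0).symm
  have hUc : ∀ u ∈ U, IsCoprime u.1 u.2 := by
    intro u hu
    obtain ⟨z, hz, rfl⟩ := Finset.mem_image.1 hu
    exact pd_coprime (hUne z hz)
  have hU0 : ∀ u ∈ U, u ≠ 0 := by
    rintro u hu rfl
    exact not_isCoprime_zero_zero (hUc 0 hu)
  -- the injection
  have h1 : (tri Q k).card ≤ ((k.divisors.sigma fun g => U.sigma fun u =>
      td Q u (g : ℤ) ((k / g : ℕ) : ℤ))).card := by
    refine Finset.card_le_card_of_injOn (fun z => ⟨gc (z.1.2 - z.1.1),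
      ⟨pd (z.1.2 - z.1.1), (z.1.1, z.2)⟩⟩) ?_ ?_
    · rintro ⟨⟨p, q⟩, r⟩ hz
      obtain ⟨h2, h3⟩ := Finset.mem_filter.1 (Finset.mem_coe.1 hz)
      rw [Finset.mem_product, Finset.mem_product] at h2
      obtain ⟨⟨hp, hq⟩, hr⟩ := h2
      simp only at h3 hp hq hr
      have hne : q - p ≠ 0 := by
        intro h0
        rw [h0] at h3
        unfold dt at h3
        simp only [Prod.fst_zero, Prod.snd_zero, zero_mul, sub_self] at h3
        omega
      obtain ⟨e1, e2⟩ := pd_mul (q - p)
      have hg := gc_pos hne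
      -- k = g * dt (pd) (r - p)
      have h4 : (gc (q - p) : ℤ) * dt (pd (q - p)) (r - p) = k := by
        rw [← h3]
        unfold dt
        rw [← e1, ← e2]
        ring
      have hdvd : gc (q - p) ∣ k := by
        have : (gc (q - p) : ℤ) ∣ (k : ℤ) := ⟨_, h4.symm⟩
        exact_mod_cast this
      have h5 : dt (pd (q - p)) (r - p) = ((k / gc (q - p) : ℕ) : ℤ) := by
        obtain ⟨t, ht⟩ := hdvd
        rw [ht, Nat.mul_div_cancel_left _ hg]
        rw [ht] at h4
        push_cast at h4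
        exact mul_left_cancel₀ (by exact_mod_cast hg.ne') h4
      refine Finset.mem_coe.2 (Finset.mem_sigma.2 ⟨Nat.mem_divisors.2 ⟨hdvd, hk.ne'⟩, ?_⟩)
      refine Finset.mem_sigma.2 ⟨?_, ?_⟩
      · rw [hU, Finset.mem_image]
        refine ⟨(p, q), Finset.mem_offDiag.2 ⟨hp, hq, ?_⟩, rfl⟩
        intro h0
        apply hne
        simp only at h0
        rw [h0, sub_self]
      · refine Finset.mem_filter.2 ⟨Finset.mem_product.2 ⟨hp, hr⟩, ?_, ?_⟩
        · simp only
          rw [e1, e2]
          simp only [Prod.fst_sub, Prod.snd_sub, add_sub_cancel]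
          exact hq
        · simp only
          rw [← h5]
          unfold dt
          simp only [Prod.fst_sub, Prod.snd_sub]
          ring
    · rintro ⟨⟨p, q⟩, r⟩ hz ⟨⟨p', q'⟩, r'⟩ hw he
      simp only [Sigma.mk.injEq, heq_eq_eq, Prod.mk.injEq] at he
      obtain ⟨e1, e2, e3, e4⟩ := he
      subst e3 e4
      obtain ⟨a1, a2⟩ := pd_mul (q - p)
      obtain ⟨b1, b2⟩ := pd_mul (q' - p)
      rw [e1, e2] at a1 a2
      have c1 : q.1 = q'.1 := by
        have := a1.symm.trans b1
        simp only [Prod.fst_sub] at this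
        linarith
      have c2 : q.2 = q'.2 := by
        have := a2.symm.trans b2
        simp only [Prod.snd_sub] at this
        linarith
      have c3 : q = q' := Prod.ext c1 c2
      rw [c3]
  have h2 : ∑ u ∈ U, (par Q u).card ≤ 2 * (Q.card * (Q.card - 1)) := by
    have h3 : ∑ u ∈ U, (par Q u).card =
        ∑ z ∈ Q.offDiag, (U.filter fun u => dt u z.1 = dt u z.2).card := by
      simp only [par, Finset.card_filter]
      rw [Finset.sum_comm]
    rw [h3]
    have h4 : ∀ z ∈ Q.offDiag, (U.filter fun u => dt u z.1 = dt u z.2).card ≤ 2 := by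
      intro z hz
      have h5 : (U.filter fun u => dt u z.1 = dt u z.2) ⊆
          {pd (z.2 - z.1), -pd (z.2 - z.1)} := by
        intro u hu
        obtain ⟨h6, h7⟩ := Finset.mem_filter.1 hu
        rw [Finset.mem_insert, Finset.mem_singleton]
        refine parallel (hUc u h6) (pd_coprime (hUne z hz)) ?_
        obtain ⟨e1, e2⟩ := pd_mul (z.2 - z.1)
        have hg := gc_pos (hUne z hz)
        have h8 : (gc (z.2 - z.1) : ℤ) * dt u (pd (z.2 - z.1)) = 0 := by
          have h9 : (gc (z.2 - z.1) : ℤ) * dt u (pd (z.2 - z.1)) = dt u (z.2 - z.1) := by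
            unfold dt
            rw [← e1, ← e2]
            simp only [pd]
            ring
          rw [h9]
          unfold dt at h7 ⊢
          simp only [Prod.fst_sub, Prod.snd_sub]
          linarith
        rcases mul_eq_zero.1 h8 with h9 | h9
        · exfalso
          have : gc (z.2 - z.1) = 0 := by exact_mod_cast h9
          omega
        · exact h9
      exact (Finset.card_le_card h5).trans Finset.card_le_two
    refine (Finset.sum_le_sum h4).trans ?_
    rw [Finset.sum_const, smul_eq_mul, Finset.offDiag_card, Nat.mul_sub, mul_one]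
    omega
  refine h1.trans ?_
  rw [Finset.card_sigma]
  have h3 : ∀ g ∈ k.divisors, (U.sigma fun u => td Q u (g : ℤ) ((k / g : ℕ) : ℤ)).card ≤
      2 * (Q.card * (Q.card - 1)) := by
    intro g hg
    have hg0 : 0 < g := Nat.pos_of_mem_divisors hg
    rw [Finset.card_sigma]
    refine le_trans (Finset.sum_le_sum fun u hu => td_le Q (hU0 u hu) (by exact_mod_cast hg0) _) h2
  refine (Finset.sum_le_sum h3).trans ?_
  rw [Finset.sum_const, smul_eq_mul]
  apply le_of_eq
  ring

end Pool.Agent.Work.MP_916cc8_co.Lattice
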