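import Pool.Agent.Work.MP_916cc8_co.SD.LatticeTri

/-!
# Unit area triangles in subsets of a lattice
-/

set_option autoImplicit false

namespace Pool.Agent.Work.MP_916cc8_co.LatticeSetsR

open Finset

/-- the area of the triangle `p q r` -/
noncomputable def area (p q r : ℝ × ℝ) : ℝ :=
  |(q.1 - p.1) * (r.2 - p.2) - (q.2 - p.2) * (r.1 - p.1)| / 2

open scoped Classical in
/-- the number of unit area triangles (3-element subsets) of `P` -/
noncomputable def unitTriangles (P : Finset (ℝ × ℝ)) : ℕ :=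
  ((P.powersetCard 3).filter
    (fun t => ∃ p q r : ℝ × ℝ, t = {p, q, r} ∧ area p q r = 1)).card

/-- Let `a, b` be vectors with `|det (a, b)| = 2 / k`, `k ≥ 1` an integer, and let `P` be any
finite subset of a translate `c + ℤ a + ℤ b` of the lattice spanned by `a` and `b`. Then `P` spans
at most `(2/3) τ(k) |P| (|P| - 1)` unit area triangles, `τ(k)` the number of divisors of `k`. -/
theorem result (k : ℕ) (hk : 0 < k) (a b c : ℝ × ℝ)
    (hab : |a.1 * b.2 - a.2 * b.1| = 2 / (k : ℝ)) (P : Finset (ℝ × ℝ))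
    (hP : ∀ p ∈ P, ∃ x y : ℤ, p.1 = c.1 + x * a.1 + y * b.1 ∧ p.2 = c.2 + x * a.2 + y * b.2) :
    3 * unitTriangles P ≤ 2 * k.divisors.card * (P.card * (P.card - 1)) := by
  classical
  have hk0 : (0 : ℝ) < (k : ℝ) := by exact_mod_cast hk
  have hA : |(k : ℝ) * (a.1 * b.2 - a.2 * b.1)| = 2 := by
    rw [abs_mul, abs_of_pos hk0, hab]
    field_simp
  have hne : (k : ℝ) * (a.1 * b.2 - a.2 * b.1) ≠ 0 := by
    intro h0
    rw [h0, abs_zero] at hA
    norm_num at hA
  have h0 : unitTriangles P ≤ (P.powerset.filter fun t => ∃ p q r : ℝ × ℝ, t = {p, q, r} ∧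
      |(q.1 - p.1) * (r.2 - p.2) - (q.2 - p.2) * (r.1 - p.1)| =
        |(k : ℝ) * (a.1 * b.2 - a.2 * b.1)|).card := by
    refine Finset.card_le_card fun t ht => ?_
    rw [Finset.mem_filter, Finset.mem_powersetCard] at ht
    obtain ⟨⟨h1, _⟩, p, q, r, h2, h3⟩ := ht
    refine Finset.mem_filter.2 ⟨Finset.mem_powerset.2 h1, p, q, r, h2, ?_⟩
    unfold area at h3
    rw [hA]
    linarith
  exact le_trans (Nat.mul_le_mul_left 3 h0)
    (le_trans (Pool.Agent.Work.MP_916cc8_co.SD.three_mul P hne)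
      (Pool.Agent.Work.MP_916cc8_co.Lattice.reduce hk a b c hab P hP))

end Pool.Agent.Work.MP_916cc8_co.LatticeSetsR
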