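import Pool.Agent.Work.MP_916cc8_co.SD.Tri
import Pool.Agent.Work.MP_916cc8_co.SD.Lattice

/-! Unit area triangles in lattices. -/

set_option autoImplicit false

namespace Pool.Agent.Work.MP_916cc8_co.Lattice

open Finset
open Pool.Agent.Work.MP_916cc8_co

/-- From a lattice to the integer lattice. -/
theorem reduce {k : ℕ} (hk : 0 < k) (a b c : ℝ × ℝ)
    (hab : |a.1 * b.2 - a.2 * b.1| = 2 / (k : ℝ)) (P : Finset (ℝ × ℝ))
    (hP : ∀ p ∈ P, ∃ x y : ℤ, p.1 = c.1 + x * a.1 + y * b.1 ∧ p.2 = c.2 + x * a.2 + y * b.2) :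
    (SD.tri P ((k : ℝ) * (a.1 * b.2 - a.2 * b.1))).card ≤
      2 * k.divisors.card * (P.card * (P.card - 1)) := by
  classical
  have hk0 : (0 : ℝ) < (k : ℝ) := by exact_mod_cast hk
  have hD : a.1 * b.2 - a.2 * b.1 ≠ 0 := by
    intro h0
    rw [h0, abs_zero] at hab
    have : 0 < 2 / (k : ℝ) := by positivity
    linarith
  choose! X Y hX hY using hP
  set Q := P.image fun p => (X p, Y p) with hQ
  have hinj : Set.InjOn (fun p => (X p, Y p)) (P : Set (ℝ × ℝ)) := by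
    intro p hp q hq hpq
    rw [Prod.mk.injEq] at hpq
    refine Prod.ext ?_ ?_
    · rw [hX p hp, hX q hq, hpq.1, hpq.2]
    · rw [hY p hp, hY q hq, hpq.1, hpq.2]
  have hcard : Q.card = P.card := Finset.card_image_of_injOn hinj
  have h1 := tri_le Q hk
  rw [hcard] at h1
  refine le_trans ?_ h1
  refine Finset.card_le_card_of_injOn (fun z => (((X z.1.1, Y z.1.1), (X z.1.2, Y z.1.2)),
    (X z.2, Y z.2))) ?_ ?_
  · rintro ⟨⟨p, q⟩, r⟩ hz
    obtain ⟨h2, h3⟩ := Finset.mem_filter.1 (Finset.mem_coe.1 hz)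
    rw [Finset.mem_product, Finset.mem_product] at h2
    obtain ⟨⟨hp, hq⟩, hr⟩ := h2
    simp only at h3 hp hq hr
    refine Finset.mem_coe.2 (Finset.mem_filter.2 ⟨?_, ?_⟩)
    · rw [Finset.mem_product, Finset.mem_product]
      exact ⟨⟨Finset.mem_image.2 ⟨p, hp, rfl⟩, Finset.mem_image.2 ⟨q, hq, rfl⟩⟩,
        Finset.mem_image.2 ⟨r, hr, rfl⟩⟩
    · simp only
      unfold SD.ar at h3
      rw [hX p hp, hX q hq, hX r hr, hY p hp, hY q hq, hY r hr] at h3
      have h4 : (a.1 * b.2 - a.2 * b.1) * ((dt ((X q, Y q) - (X p, Y p))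
          ((X r, Y r) - (X p, Y p)) : ℤ) : ℝ) = (a.1 * b.2 - a.2 * b.1) * (k : ℝ) := by
        unfold dt
        simp only [Prod.mk_sub_mk]
        push_cast
        linear_combination h3
      have h5 := mul_left_cancel₀ hD h4
      exact_mod_cast h5
  · rintro ⟨⟨p, q⟩, r⟩ hz ⟨⟨p', q'⟩, r'⟩ hw he
    obtain ⟨h2, _⟩ := Finset.mem_filter.1 (Finset.mem_coe.1 hz)
    obtain ⟨h3, _⟩ := Finset.mem_filter.1 (Finset.mem_coe.1 hw)
    rw [Finset.mem_product, Finset.mem_product] at h2 h3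
    have e : (((X p, Y p), (X q, Y q)), (X r, Y r)) =
      (((X p', Y p'), (X q', Y q')), (X r', Y r')) := he
    rw [Prod.mk.injEq, Prod.mk.injEq] at e
    have e1 := hinj (Finset.mem_coe.2 h2.1.1) (Finset.mem_coe.2 h3.1.1) e.1.1
    have e2 := hinj (Finset.mem_coe.2 h2.1.2) (Finset.mem_coe.2 h3.1.2) e.1.2
    have e3 := hinj (Finset.mem_coe.2 h2.2) (Finset.mem_coe.2 h3.2) e.2
    simp only at e1 e2 e3
    rw [e1, e2, e3]

end Pool.Agent.Work.MP_916cc8_co.Lattice
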