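import Pool.Agent.Work.MP_916cc8_co.SD.Final

/-! From ordered triples to triangles. -/

set_option autoImplicit false

namespace Pool.Agent.Work.MP_916cc8_co.SD

open Finset
open scoped Pointwise

open scoped Classical in
/-- triangles as three-element sets -/
theorem three_mul (P : Finset (ℝ × ℝ)) {A : ℝ} (hA : A ≠ 0) :
    3 * (P.powerset.filter fun t => ∃ p q r : ℝ × ℝ, t = {p, q, r} ∧
      |(q.1 - p.1) * (r.2 - p.2) - (q.2 - p.2) * (r.1 - p.1)| = |A|).card ≤ (tri P A).card := by
  refine Finset.mul_card_image_le_card_of_maps_to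
    (f := fun z : ((ℝ × ℝ) × (ℝ × ℝ)) × (ℝ × ℝ) => ({z.1.1, z.1.2, z.2} : Finset (ℝ × ℝ)))
    ?_ 3 ?_
  · rintro ⟨⟨p, q⟩, r⟩ hz
    obtain ⟨h1, h2⟩ := Finset.mem_filter.1 hz
    rw [Finset.mem_product, Finset.mem_product] at h1
    simp only at h1 h2
    refine Finset.mem_filter.2 ⟨?_, p, q, r, rfl, ?_⟩
    · rw [Finset.mem_powerset]
      intro x hx
      simp only [Finset.mem_insert, Finset.mem_singleton] at hx
      rcases hx with rfl | rfl | rfl
      · exact h1.1.1
      · exact h1.1.2
      · exact h1.2
    · unfold ar at h2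
      rw [h2]
  · intro t ht
    obtain ⟨htP, p, q, r, rfl, harea⟩ := Finset.mem_filter.1 ht
    rw [Finset.mem_powerset] at htP
    -- orientation
    have key : ∀ p q r : ℝ × ℝ, ({p, q, r} : Finset (ℝ × ℝ)) ⊆ P → ar p q r = A →
        3 ≤ ((tri P A).filter fun z : ((ℝ × ℝ) × (ℝ × ℝ)) × (ℝ × ℝ) =>
          ({z.1.1, z.1.2, z.2} : Finset (ℝ × ℝ)) = {p, q, r}).card := by
      intro p q r hsub h
      have hp : p ∈ P := hsub (by simp)
      have hq : q ∈ P := hsub (by simp)
      have hr : r ∈ P := hsub (by simp)
      have hpq : p ≠ q := by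
        rintro rfl
        apply hA
        rw [← h]
        unfold ar
        ring
      have hqr : q ≠ r := by
        rintro rfl
        apply hA
        rw [← h]
        unfold ar
        ring
      have hrp : r ≠ p := by
        rintro rfl
        apply hA
        rw [← h]
        unfold ar
        ring
      have h2 : ar q r p = A := by
        rw [← h]
        unfold ar
        ring
      have h3 : ar r p q = A := by
        rw [← h]
        unfold ar
        ring
      have hsub3 : ({((p, q), r), ((q, r), p), ((r, p), q)} :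
          Finset (((ℝ × ℝ) × (ℝ × ℝ)) × (ℝ × ℝ))) ⊆
          (tri P A).filter fun z : ((ℝ × ℝ) × (ℝ × ℝ)) × (ℝ × ℝ) =>
          ({z.1.1, z.1.2, z.2} : Finset (ℝ × ℝ)) = {p, q, r} := by
        intro z hz
        simp only [Finset.mem_insert, Finset.mem_singleton] at hz
        rcases hz with rfl | rfl | rfl
        · refine Finset.mem_filter.2 ⟨Finset.mem_filter.2 ⟨?_, h⟩, rfl⟩
          simp only [Finset.mem_product]
          exact ⟨⟨hp, hq⟩, hr⟩
        · refine Finset.mem_filter.2 ⟨Finset.mem_filter.2 ⟨?_, h2⟩, ?_⟩
          · simp only [Finset.mem_product]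
            exact ⟨⟨hq, hr⟩, hp⟩
          · ext x
            simp only [Finset.mem_insert, Finset.mem_singleton]
            tauto
        · refine Finset.mem_filter.2 ⟨Finset.mem_filter.2 ⟨?_, h3⟩, ?_⟩
          · simp only [Finset.mem_product]
            exact ⟨⟨hr, hp⟩, hq⟩
          · ext x
            simp only [Finset.mem_insert, Finset.mem_singleton]
            tauto
      refine le_trans ?_ (Finset.card_le_card hsub3)
      rw [Finset.card_insert_of_notMem, Finset.card_insert_of_notMem, Finset.card_singleton]
      · simp only [Finset.mem_singleton, Prod.mk.injEq]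
        tauto
      · simp only [Finset.mem_insert, Finset.mem_singleton, Prod.mk.injEq]
        tauto
    have h1 : ar p q r = A ∨ ar q p r = A := by
      have h2 : |ar p q r| = |A| := harea
      rcases abs_eq_abs.1 h2 with h | h
      · exact Or.inl h
      · right
        rw [← neg_neg A, ← h]
        unfold ar
        ring
    rcases h1 with h | h
    · exact key p q r htP h
    · have hset : ({p, q, r} : Finset (ℝ × ℝ)) = {q, p, r} := by
        ext x
        simp only [Finset.mem_insert, Finset.mem_singleton]
        tauto
      rw [hset] at htP ⊢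
      exact key q p r htP h

end Pool.Agent.Work.MP_916cc8_co.SD
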